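import Mathlib
import Pool.Agent.N753.DR.Stm

/-!
# DR/SMALL, part 1: combinatorics
-/

set_option autoImplicit false

open Finset

namespace Pool.Agent.N340.DR

/-- double counting of translates -/
lemma dcount {V ι : Type*} [AddCommGroup V] [DecidableEq V] (S big : Finset V)
    (D : Finset ι) (f : ι → V) (A : ℕ) (h1 : ∀ c ∈ S, ∀ m ∈ D, c - f m ∈ big)
    (h2 : ∀ Q ∈ big, (D.filter fun m => Q + f m ∈ S).card ≤ A) :
    S.card * D.card ≤ A * big.card := by
  have e1 : ∑ Q ∈ big, (D.filter fun m => Q + f m ∈ S).card =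
      ∑ m ∈ D, (big.filter fun Q => Q + f m ∈ S).card :=
    Finset.sum_card_bipartiteAbove_eq_sum_card_bipartiteBelow (fun Q m => Q + f m ∈ S)
  have h3 : ∀ m ∈ D, S.card ≤ (big.filter fun Q => Q + f m ∈ S).card := by
    intro m hm
    refine Finset.card_le_card_of_injOn (fun c => c - f m) ?_ ?_
    · intro c hc
      rw [mem_coe] at hc
      rw [mem_coe, mem_filter]
      refine ⟨h1 c hc m hm, ?_⟩
      simpa using hc
    · intro c _ c' _ h
      exact sub_left_injective h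
  calc S.card * D.card = ∑ _m ∈ D, S.card := by rw [sum_const, smul_eq_mul, mul_comm]
    _ ≤ ∑ m ∈ D, (big.filter fun Q => Q + f m ∈ S).card := sum_le_sum h3
    _ = ∑ Q ∈ big, (D.filter fun m => Q + f m ∈ S).card := e1.symm
    _ ≤ ∑ _Q ∈ big, A := sum_le_sum h2
    _ = A * big.card := by rw [sum_const, smul_eq_mul, mul_comm]

lemma modEq_of_primes {q : ℕ} {m m' : ℕ}
    (h : ∀ p ∈ q.primeFactors, m % p ^ q.factorization p = m' % p ^ q.factorization p)
    (hq : q ≠ 0) : m ≡ m' [MOD q] := by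
  rw [Nat.modEq_iff_dvd, Int.natCast_dvd, Nat.dvd_iff_prime_pow_dvd_dvd]
  intro p k hp hk
  rcases Nat.eq_zero_or_pos k with rfl | hk0
  · simp
  have h1 : p ∈ q.primeFactors := by
    rw [Nat.mem_primeFactors]
    exact ⟨hp, (dvd_pow_self p hk0.ne').trans hk, hq⟩
  have h2 : k ≤ q.factorization p := (hp.pow_dvd_iff_le_factorization hq).1 hk
  have h3 : m ≡ m' [MOD p ^ q.factorization p] := h p h1
  rw [Nat.modEq_iff_dvd, Int.natCast_dvd] at h3
  exact (pow_dvd_pow p h2).trans h3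

open scoped Classical in
/-- the Chinese remainder theorem -/
lemma crt {q : ℕ} (hq : q ≠ 0) (Z : ℕ → ℕ × ℕ → Prop) (A : ℕ → ℕ)
    (hZ : ∀ p ∈ q.primeFactors, ∀ m, Z p m →
      Z p (m.1 % p ^ q.factorization p, m.2 % p ^ q.factorization p))
    (hA : ∀ p ∈ q.primeFactors, ((range (p ^ q.factorization p) ×ˢ
      range (p ^ q.factorization p)).filter (Z p)).card ≤ A p) :
    ((range q ×ˢ range q).filter fun m => ∀ p ∈ q.primeFactors, Z p m).card ≤
      ∏ p ∈ q.primeFactors, A p := by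
  calc ((range q ×ˢ range q).filter fun m => ∀ p ∈ q.primeFactors, Z p m).card ≤
        (Finset.pi q.primeFactors (fun p => (range (p ^ q.factorization p) ×ˢ
          range (p ^ q.factorization p)).filter (Z p))).card := by
        refine Finset.card_le_card_of_injOn
          (fun m p _ => (m.1 % p ^ q.factorization p, m.2 % p ^ q.factorization p)) ?_ ?_
        · intro m hm
          rw [mem_coe, mem_filter] at hm
          rw [mem_coe, Finset.mem_pi]
          intro p hp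
          have hpp := (Nat.prime_of_mem_primeFactors hp).pos
          rw [mem_filter, mem_product, mem_range, mem_range]
          exact ⟨⟨Nat.mod_lt _ (pow_pos hpp _), Nat.mod_lt _ (pow_pos hpp _)⟩,
            hZ p hp m (hm.2 p hp)⟩
        · intro m hm m' hm' h
          rw [mem_coe, mem_filter, mem_product, mem_range, mem_range] at hm hm'
          have h1 : ∀ p ∈ q.primeFactors, m.1 % p ^ q.factorization p =
              m'.1 % p ^ q.factorization p := fun p hp =>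
            congrArg Prod.fst (congrFun (congrFun h p) hp)
          have h2 : ∀ p ∈ q.primeFactors, m.2 % p ^ q.factorization p =
              m'.2 % p ^ q.factorization p := fun p hp =>
            congrArg Prod.snd (congrFun (congrFun h p) hp)
          exact Prod.ext ((modEq_of_primes h1 hq).eq_of_lt_of_lt hm.1.1 hm'.1.1)
            ((modEq_of_primes h2 hq).eq_of_lt_of_lt hm.1.2 hm'.1.2)
    _ = ∏ p ∈ q.primeFactors, ((range (p ^ q.factorization p) ×ˢ
          range (p ^ q.factorization p)).filter (Z p)).card := Finset.card_pi _ _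
    _ ≤ ∏ p ∈ q.primeFactors, A p := Finset.prod_le_prod' hA

/-- powerful numbers -/
lemma pow_rep {q : ℕ} (hq : q ≠ 0) (h : ∀ p ∈ q.primeFactors, 2 ≤ q.factorization p) :
    ∃ x y, q = x ^ 2 * y ^ 3 := by
  obtain ⟨a, b, hab, ha⟩ := Nat.sq_mul_squarefree q
  have h1 : a ∣ b := by
    rw [← Nat.prod_primeFactors_of_squarefree ha]
    refine Finset.prod_primes_dvd b (fun p hp => (Nat.prime_of_mem_primeFactors hp).prime) ?_
    intro p hp
    have hpp := Nat.prime_of_mem_primeFactors hp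
    have hpa := Nat.dvd_of_mem_primeFactors hp
    by_contra hc
    have hpq : p ∈ q.primeFactors := by
      rw [Nat.mem_primeFactors]
      refine ⟨hpp, ?_, hq⟩
      rw [← hab]
      exact hpa.mul_left _
    have h2 : p ^ 2 ∣ q := (hpp.pow_dvd_iff_le_factorization hq).2 (h p hpq)
    have h3 : Nat.Coprime (p ^ 2) (b ^ 2) :=
      Nat.Coprime.pow 2 2 ((Nat.Prime.coprime_iff_not_dvd hpp).2 hc)
    rw [← hab] at h2
    have h4 := h3.dvd_of_dvd_mul_left h2
    rw [sq] at h4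
    exact hpp.one_lt.ne' (Nat.isUnit_iff.1 (ha p h4))
  obtain ⟨x, rfl⟩ := h1
  exact ⟨x, a, by rw [← hab]; ring⟩

/-- the descent -/
lemma descend (Adm : ℕ → Prop) {y X : ℝ} (hy : 1 ≤ y) (hX : 1 ≤ X)
    (hstep : ∀ q, Adm q → q ≠ 1 → ∃ q' d, q = q' * d ∧ Adm q' ∧ 2 ≤ d ∧ (d : ℝ) ≤ y ^ 2)
    (h0 : ∀ q, Adm q → q ≠ 0) : ∀ Q, Adm Q → X ≤ Q →
    ∃ q, Adm q ∧ X ≤ q ∧ (q : ℝ) ≤ X * y ^ 2 := by
  intro Q
  induction Q using Nat.strong_induction_on with
  | _ Q ih =>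
    intro hQ hQX
    by_cases hle : (Q : ℝ) ≤ X * y ^ 2
    · exact ⟨Q, hQ, hQX, hle⟩
    · rw [not_le] at hle
      have hy2 : 1 ≤ y ^ 2 := one_le_pow₀ hy
      have h1 : 1 ≤ X * y ^ 2 := one_le_mul_of_one_le_of_one_le hX hy2
      have hQ1 : Q ≠ 1 := by
        rintro rfl
        rw [Nat.cast_one] at hle
        linarith
      obtain ⟨q', d, he, hq', hd2, hdy⟩ := hstep Q hQ hQ1
      have hq0 := h0 q' hq'
      have hlt : q' < Q := by
        rw [he]
        have : 0 < q' := Nat.pos_of_ne_zero hq0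
        nlinarith
      refine ih q' hlt hq' ?_
      have h2 : X * y ^ 2 < (q' : ℝ) * y ^ 2 := by
        calc X * y ^ 2 < (Q : ℝ) := hle
          _ = (q' : ℝ) * d := by rw [he]; push_cast; ring
          _ ≤ (q' : ℝ) * y ^ 2 := by gcongr
      exact (lt_of_mul_lt_mul_right h2 (by positivity)).le

lemma tau_bound {τ : ℕ} (hτ : 1 ≤ τ) : ∃ C : ℝ, 0 < C ∧ ∀ q : ℕ, q ≠ 0 →
    (τ : ℝ) ^ q.primeFactors.card ≤ C * (q : ℝ) ^ (1 / 8 : ℝ) := by
  have hτR : (1 : ℝ) ≤ τ := by exact_mod_cast hτ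
  refine ⟨(τ : ℝ) ^ (τ ^ 8), by positivity, ?_⟩
  intro q hq
  have h1 : (τ : ℝ) ^ q.primeFactors.card = ∏ _p ∈ q.primeFactors, (τ : ℝ) := by
    rw [Finset.prod_const]
  have h2 : ∏ _p ∈ q.primeFactors, (τ : ℝ) ≤
      ∏ p ∈ q.primeFactors, ((if p < τ ^ 8 then (τ : ℝ) else 1) * (p : ℝ) ^ (1 / 8 : ℝ)) := by
    refine Finset.prod_le_prod (fun _ _ => by positivity) fun p hp => ?_
    have hp1 : (1 : ℝ) ≤ p := by exact_mod_cast (Nat.prime_of_mem_primeFactors hp).one_lt.le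
    have hp2 : 1 ≤ (p : ℝ) ^ (1 / 8 : ℝ) := Real.one_le_rpow hp1 (by norm_num)
    split_ifs with h
    · exact le_mul_of_one_le_right (by positivity) hp2
    · rw [one_mul]
      rw [not_lt] at h
      have h3 : ((τ : ℝ) ^ 8) ≤ p := by exact_mod_cast h
      calc (τ : ℝ) = ((τ : ℝ) ^ 8) ^ (1 / 8 : ℝ) := by
            rw [← Real.rpow_natCast, ← Real.rpow_mul (by positivity)]
            norm_num
        _ ≤ (p : ℝ) ^ (1 / 8 : ℝ) := Real.rpow_le_rpow (by positivity) h3 (by norm_num)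
  have h4 : ∏ p ∈ q.primeFactors, (if p < τ ^ 8 then (τ : ℝ) else 1) ≤ (τ : ℝ) ^ (τ ^ 8) := by
    rw [← Finset.prod_filter, Finset.prod_const]
    refine pow_le_pow_right₀ hτR ?_
    calc ((q.primeFactors).filter fun p => p < τ ^ 8).card ≤ (range (τ ^ 8)).card := by
          refine Finset.card_le_card fun p hp => ?_
          rw [mem_filter] at hp
          rw [mem_range]
          exact hp.2
      _ = τ ^ 8 := card_range _
  have h5 : ∏ p ∈ q.primeFactors, (p : ℝ) ^ (1 / 8 : ℝ) ≤ (q : ℝ) ^ (1 / 8 : ℝ) := by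
    rw [Real.finsetProd_rpow _ _ (fun p _ => by positivity)]
    refine Real.rpow_le_rpow (Finset.prod_nonneg fun p _ => by positivity) ?_ (by norm_num)
    rw [← Nat.cast_prod]
    exact_mod_cast Nat.le_of_dvd (Nat.pos_of_ne_zero hq) (Nat.prod_primeFactors_dvd q)
  rw [h1]
  refine h2.trans ?_
  rw [Finset.prod_mul_distrib]
  exact mul_le_mul h4 h5 (Finset.prod_nonneg fun p _ => by positivity) (by positivity)

lemma sum_bound : ∃ C : ℝ, 0 < C ∧ ∀ (B : ℕ) (X : ℝ), 1 ≤ X →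
    ∑ z ∈ (Icc 1 B ×ˢ Icc 1 B).filter (fun z : ℕ × ℕ => X ≤ ((z.1 ^ 2 * z.2 ^ 3 : ℕ) : ℝ)),
      (((z.1 ^ 2 * z.2 ^ 3 : ℕ) : ℝ)) ^ (-(7 / 8) : ℝ) ≤ C * X ^ (-(1 / 8) : ℝ) := by
  have hs : Summable fun x : ℕ => (x : ℝ) ^ (-(3 / 2) : ℝ) :=
    Real.summable_nat_rpow.2 (by norm_num)
  set M : ℝ := ∑' x : ℕ, (x : ℝ) ^ (-(3 / 2) : ℝ) with hM
  have hM0 : 0 ≤ M := tsum_nonneg fun _ => by positivity
  refine ⟨(M + 1) * (M + 1), by positivity, ?_⟩
  intro B X hX
  have hXpos : 0 < X := by linarith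
  have h1 : ∀ z ∈ (Icc 1 B ×ˢ Icc 1 B).filter
      (fun z : ℕ × ℕ => X ≤ ((z.1 ^ 2 * z.2 ^ 3 : ℕ) : ℝ)),
      (((z.1 ^ 2 * z.2 ^ 3 : ℕ) : ℝ)) ^ (-(7 / 8) : ℝ) ≤
      X ^ (-(1 / 8) : ℝ) * ((z.1 : ℝ) ^ (-(3 / 2) : ℝ) * (z.2 : ℝ) ^ (-(3 / 2) : ℝ)) := by
    rintro ⟨x, y⟩ hz
    simp only [mem_filter, mem_product, mem_Icc] at hz
    obtain ⟨⟨⟨hx1, -⟩, hy1, -⟩, hXz⟩ := hz
    simp only
    have hx0 : (0 : ℝ) < x := by exact_mod_cast hx1
    have hy0 : (1 : ℝ) ≤ y := by exact_mod_cast hy1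
    have hy00 : (0 : ℝ) < y := by linarith
    have hq0 : (0 : ℝ) < ((x ^ 2 * y ^ 3 : ℕ) : ℝ) := by linarith
    have e1 : (-(7 / 8) : ℝ) = -(1 / 8) + -(3 / 4) := by norm_num
    rw [e1, Real.rpow_add hq0]
    refine mul_le_mul ?_ ?_ (by positivity) (by positivity)
    · exact Real.rpow_le_rpow_of_nonpos hXpos hXz (by norm_num)
    · push_cast
      rw [Real.mul_rpow (by positivity) (by positivity), ← Real.rpow_natCast, ← Real.rpow_natCast,
        ← Real.rpow_mul hx0.le, ← Real.rpow_mul hy00.le]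
      refine mul_le_mul ?_ ?_ (by positivity) (by positivity)
      · norm_num
      · refine Real.rpow_le_rpow_of_exponent_le hy0 (by norm_num)
  refine (Finset.sum_le_sum h1).trans ?_
  rw [← Finset.mul_sum, mul_comm]
  refine mul_le_mul_of_nonneg_right ?_ (by positivity)
  calc ∑ z ∈ (Icc 1 B ×ˢ Icc 1 B).filter
        (fun z : ℕ × ℕ => X ≤ ((z.1 ^ 2 * z.2 ^ 3 : ℕ) : ℝ)),
        ((z.1 : ℝ) ^ (-(3 / 2) : ℝ) * (z.2 : ℝ) ^ (-(3 / 2) : ℝ)) ≤
      ∑ z ∈ (Icc 1 B ×ˢ Icc 1 B),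
        ((z.1 : ℝ) ^ (-(3 / 2) : ℝ) * (z.2 : ℝ) ^ (-(3 / 2) : ℝ)) :=
        Finset.sum_le_sum_of_subset_of_nonneg (Finset.filter_subset _ _)
          (fun _ _ _ => by positivity)
    _ = (∑ x ∈ Icc 1 B, (x : ℝ) ^ (-(3 / 2) : ℝ)) * ∑ y ∈ Icc 1 B, (y : ℝ) ^ (-(3 / 2) : ℝ) := by
        rw [Finset.sum_product, Finset.sum_mul_sum]
    _ ≤ (M + 1) * (M + 1) := by
        have h2 : ∑ x ∈ Icc 1 B, (x : ℝ) ^ (-(3 / 2) : ℝ) ≤ M :=
          hs.sum_le_tsum _ fun _ _ => by positivity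
        have h3 : 0 ≤ ∑ x ∈ Icc 1 B, (x : ℝ) ^ (-(3 / 2) : ℝ) :=
          Finset.sum_nonneg fun _ _ => by positivity
        exact mul_le_mul (by linarith) (by linarith) h3 (by linarith)

end Pool.Agent.N340.DR
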