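import Mathlib
import Pool.Agent.N753.DR.Stm
import Pool.Agent.N340.DR.Comb
import Pool.Agent.H437R2.Man.LowPrimes

/-!
# DR/SMALL, part 2: boxes and local conditions
-/

set_option autoImplicit false

open Finset NumberField IsDedekindDomain Module

namespace Pool.Agent.N340.DR

open Pool.Agent.N753.DR
open Pool.Agent.H437R2.Man.Low (below nm below_data card_above nm_ne_zero two_le_nm)

section box

variable {K : Type} [Field K] [NumberField K]

lemma repr_le_sz (x : 𝓞 K) (i : Free.ChooseBasisIndex ℤ (𝓞 K)) :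
    ((RingOfIntegers.basis K).repr x i).natAbs ≤ sz x := by
  unfold sz
  exact Finset.le_sup (f := fun i => ((RingOfIntegers.basis K).repr x i).natAbs) (Finset.mem_univ i)

lemma sz_sub (x y : 𝓞 K) : sz (x - y) ≤ sz x + sz y := by
  unfold sz
  refine Finset.sup_le fun i _ => ?_
  have h1 := repr_le_sz x i
  have h2 := repr_le_sz y i
  unfold sz at h1 h2
  rw [map_sub, Finsupp.sub_apply]
  omega

lemma sz_nat (m : ℕ) : sz ((m : ℕ) : 𝓞 K) ≤ sz (1 : 𝓞 K) * m := by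
  have e : ((m : ℕ) : 𝓞 K) = m • (1 : 𝓞 K) := by rw [nsmul_eq_mul, mul_one]
  rw [e]
  refine Finset.sup_le fun i _ => ?_
  rw [map_nsmul, Finsupp.smul_apply, nsmul_eq_mul, Int.natAbs_mul, Int.natAbs_natCast, mul_comm]
  exact Nat.mul_le_mul_right _ (repr_le_sz 1 i)

/-- coordinates -/
noncomputable def crd (m : ℕ) (c : Fin m → 𝓞 K) :
    Fin m × Free.ChooseBasisIndex ℤ (𝓞 K) → ℤ :=
  fun ji => (RingOfIntegers.basis K).repr (c ji.1) ji.2

lemma crd_inj (m : ℕ) : Function.Injective (crd (K := K) m) := by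
  intro c c' h
  funext j
  apply (RingOfIntegers.basis K).repr.injective
  ext i
  exact congrFun h (j, i)

lemma crd_mem {m B : ℕ} {c : Fin m → 𝓞 K} (hc : c ∈ Bx K m B) :
    crd m c ∈ Fintype.piFinset fun _ : Fin m × Free.ChooseBasisIndex ℤ (𝓞 K) =>
      Finset.Icc (-(B : ℤ)) B := by
  rw [Fintype.mem_piFinset]
  intro ji
  have h1 := repr_le_sz (c ji.1) ji.2
  have h2 : sz (c ji.1) ≤ B := hc ji.1
  rw [Finset.mem_Icc]
  unfold crd
  omega

lemma bx_finite (m B : ℕ) : (Bx K m B).Finite :=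
  Set.Finite.of_injOn (f := crd m) (t := (Fintype.piFinset fun _ => Finset.Icc (-(B : ℤ)) B :
    Finset (Fin m × Free.ChooseBasisIndex ℤ (𝓞 K) → ℤ))) (fun _ hc => crd_mem hc)
    (crd_inj m).injOn (Finset.finite_toSet _)

lemma bx_card (m B : ℕ) : (Bx K m B).ncard ≤ (2 * B + 1) ^ (m * finrank ℚ K) := by
  have h1 : (Bx K m B).ncard ≤ ((Fintype.piFinset fun _ => Finset.Icc (-(B : ℤ)) B :
    Finset (Fin m × Free.ChooseBasisIndex ℤ (𝓞 K) → ℤ)) : Set _).ncard :=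
    Set.ncard_le_ncard_of_injOn (crd m) (fun _ hc => crd_mem hc) (crd_inj m).injOn
      (Finset.finite_toSet _)
  rw [Set.ncard_coe_finset, Fintype.card_piFinset, Finset.prod_const, Int.card_Icc,
    Finset.card_univ, Fintype.card_prod, Fintype.card_fin,
    ← finrank_eq_card_basis (RingOfIntegers.basis K), RingOfIntegers.rank] at h1
  have e : ((B : ℤ) + 1 - -(B : ℤ)).toNat = 2 * B + 1 := by omega
  rwa [e] at h1

end box

section primes

variable {K : Type} [Field K] [NumberField K]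

lemma below_eq {v : HeightOneSpectrum (𝓞 K)} {p : ℕ} (hp : p.Prime)
    (h : ((p : ℕ) : 𝓞 K) ∈ v.asIdeal) : below v = p := by
  obtain ⟨h1, -, h3⟩ := below_data v
  by_contra hne
  have hco : Nat.Coprime (below v) p := (Nat.coprime_primes h1 hp).2 hne
  have h4 : IsCoprime ((below v : ℕ) : ℤ) ((p : ℕ) : ℤ) := Nat.isCoprime_iff_coprime.2 hco
  obtain ⟨a, b, hab⟩ := h4
  have h5 : (1 : 𝓞 K) = (a : 𝓞 K) * ((below v : ℕ) : 𝓞 K) + (b : 𝓞 K) * ((p : ℕ) : 𝓞 K) := by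
    have := congrArg (fun z : ℤ => (z : 𝓞 K)) hab
    push_cast at this
    exact this.symm
  apply v.isPrime.ne_top
  rw [Ideal.eq_top_iff_one, h5]
  exact v.asIdeal.add_mem (v.asIdeal.mul_mem_left _ h3) (v.asIdeal.mul_mem_left _ h)

lemma lN_nonneg (v : HeightOneSpectrum (𝓞 K)) : 0 ≤ lN v :=
  Real.log_nonneg (by exact_mod_cast (by have := two_le_nm v; unfold nm at this; omega :
    1 ≤ Ideal.absNorm v.asIdeal))

lemma sum_lN_le (p : ℕ) (G : Finset (HeightOneSpectrum (𝓞 K))) (hp : p.Prime)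
    (hG : ∀ v ∈ G, below v = p) : ∑ v ∈ G, lN v ≤ finrank ℚ K * Real.log p := by
  classical
  have hdvd : (∏ v ∈ G, v.asIdeal) ∣ Ideal.span {(((p : ℕ) : 𝓞 K))} := by
    refine Finset.prod_dvd_of_isRelPrime ?_ ?_
    · intro v _ u _ hvu
      rw [Function.onFun]
      have hne : v.asIdeal ≠ u.asIdeal := fun h => hvu (HeightOneSpectrum.ext h)
      have h1 : IsCoprime v.asIdeal u.asIdeal := by
        rw [Ideal.isCoprime_iff_sup_eq]
        exact (v.isPrime.isMaximal v.ne_bot).coprime_of_ne (u.isPrime.isMaximal u.ne_bot) hne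
      exact h1.isRelPrime
    · intro v hv
      rw [Ideal.dvd_iff_le, Ideal.span_singleton_le_iff_mem]
      have := (below_data v).2.2
      rwa [hG v hv] at this
  have h2 : Ideal.absNorm (∏ v ∈ G, v.asIdeal) ∣ Ideal.absNorm (Ideal.span {(((p : ℕ) : 𝓞 K))}) :=
    map_dvd Ideal.absNorm hdvd
  rw [Ideal.absNorm_span_natCast, map_prod, RingOfIntegers.rank] at h2
  have h3 := Nat.le_of_dvd (pow_pos hp.pos _) h2
  have h4 : ∑ v ∈ G, lN v = Real.log ((∏ v ∈ G, Ideal.absNorm v.asIdeal : ℕ) : ℝ) := by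
    unfold lN
    rw [Nat.cast_prod, Real.log_prod]
    intro v _
    have := nm_ne_zero v
    unfold nm at this
    exact_mod_cast this
  rw [h4, ← Real.log_pow]
  refine Real.log_le_log ?_ (by exact_mod_cast h3)
  have : 0 < ∏ v ∈ G, Ideal.absNorm v.asIdeal := Finset.prod_pos fun v _ =>
    Nat.pos_of_ne_zero (nm_ne_zero v)
  exact_mod_cast this

end primes

section loc

variable {K L : Type} [Field K] [NumberField K] [Field L] [NumberField L] [Algebra K L]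

/-- the conclusion of `StmTyp` -/
def Good (θ : 𝓞 L) (a r : ℕ) (v : HeightOneSpectrum (𝓞 K)) : Prop :=
    (a : 𝓞 K) ∉ v.asIdeal ∧
    (∀ w : HeightOneSpectrum (𝓞 L), w.asIdeal.LiesOver v.asIdeal → ∀ (e : ℕ) (c : 𝓞 K),
      algebraMap (𝓞 K) (𝓞 L) c ∈ w.asIdeal ^ e → c ∈ v.asIdeal ^ e) ∧
    (∀ p : ℕ, p.Prime → (p : 𝓞 K) ∈ v.asIdeal → ∀ (e : ℕ) (m : ℤ),
      (m : 𝓞 K) ∈ v.asIdeal ^ e → (p : ℤ) ^ e ∣ m) ∧
    (∀ w : HeightOneSpectrum (𝓞 L), w.asIdeal.LiesOver v.asIdeal → ∀ c0 c1 : 𝓞 K,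
      algebraMap (𝓞 K) (𝓞 L) c0 + algebraMap (𝓞 K) (𝓞 L) c1 * θ ∈ w.asIdeal →
      (Ideal.absNorm v.asIdeal < Ideal.absNorm w.asIdeal ∨
        ∃ w' : HeightOneSpectrum (𝓞 L), w'.asIdeal.LiesOver v.asIdeal ∧ w' ≠ w ∧
          algebraMap (𝓞 K) (𝓞 L) c0 + algebraMap (𝓞 K) (𝓞 L) c1 * θ ∈ w'.asIdeal) →
      c0 ∈ v.asIdeal ∧ c1 ∈ v.asIdeal) ∧
    (∀ b : Ideal (𝓞 L), IsTyp v b → ∀ s : ℕ, (2 ≤ s ∨ finrank K L = 1) → 1 ≤ s → s ≤ r + 1 →
      ((Submodule.toAddSubgroup b).comap (evS K a θ r s)).index ≠ 0 ∧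
        Ideal.absNorm v.asIdeal ^ 2 ≤ ((Submodule.toAddSubgroup b).comap (evS K a θ r s)).index) ∧
    (∀ b : Ideal (𝓞 L), IsTyp v b → b ≠ ⊥ ∧ Ideal.absNorm v.asIdeal ^ 2 ≤ Ideal.absNorm b) ∧
    {b : Ideal (𝓞 L) | IsTyp v b}.Finite ∧
      {b : Ideal (𝓞 L) | IsTyp v b}.ncard ≤ 2 * finrank K L ^ 2

/-- local types of exponent `g` at `p` -/
def TT (Bad : Finset (HeightOneSpectrum (𝓞 K))) (p g : ℕ) (t : Ideal (𝓞 L)) : Prop :=
  ∃ v : HeightOneSpectrum (𝓞 K), v ∉ Bad ∧ (p : 𝓞 K) ∈ v.asIdeal ∧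
    ((∃ w : HeightOneSpectrum (𝓞 L), w.asIdeal.LiesOver v.asIdeal ∧ t = w.asIdeal ^ g) ∨
      (g = 2 ∧ IsTyp v t))

omit [NumberField K] [NumberField L] in
lemma nat_mem_over {v : HeightOneSpectrum (𝓞 K)} {w : HeightOneSpectrum (𝓞 L)}
    (h : w.asIdeal.LiesOver v.asIdeal) (p : ℕ) :
    (p : 𝓞 K) ∈ v.asIdeal ↔ (p : 𝓞 L) ∈ w.asIdeal := by
  rw [Ideal.mem_of_liesOver w.asIdeal v.asIdeal, map_natCast]

lemma TT_pow {Bad : Finset (HeightOneSpectrum (𝓞 K))} {p g : ℕ} {t : Ideal (𝓞 L)}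
    (h : TT Bad p g t) : (p : 𝓞 L) ^ g ∈ t := by
  obtain ⟨v, -, hp, ⟨w, hw, rfl⟩ | ⟨rfl, w, hw, h1⟩⟩ := h
  · exact Ideal.pow_mem_pow ((nat_mem_over hw p).1 hp) _
  · have hpw := (nat_mem_over hw p).1 hp
    rcases h1 with rfl | ⟨w', hw', -, rfl⟩ | ⟨rfl, -⟩
    · exact Ideal.pow_mem_pow hpw _
    · rw [sq]
      exact Ideal.mul_mem_mul hpw ((nat_mem_over hw' p).1 hp)
    · rw [sq]
      exact Ideal.mul_mem_left _ _ hpw

open scoped Classical in
/-- at most `p ^ g` classes -/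
lemma TT_count {θ : 𝓞 L} {a r : ℕ} {Bad : Finset (HeightOneSpectrum (𝓞 K))}
    (hG : ∀ v ∉ Bad, Good θ a r v) (hr : 1 ≤ r) {p g : ℕ} (hp : p.Prime) {t : Ideal (𝓞 L)}
    (h : TT Bad p g t) (Q : 𝓞 L) :
    ((range (p ^ g) ×ˢ range (p ^ g)).filter fun m : ℕ × ℕ =>
      Q + ((m.1 : 𝓞 L) * (a : 𝓞 L) ^ r + (m.2 : 𝓞 L) * ((a : 𝓞 L) ^ (r - 1) * θ)) ∈ t).card ≤
      p ^ g := by
  obtain ⟨v, hv, hpv, h1⟩ := h
  obtain ⟨g1, g2, g3, g4, -, -, -⟩ := hG v hv
  have hpa : ¬ (p : ℤ) ∣ (a : ℤ) := by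
    intro hd
    obtain ⟨b, hb⟩ := Int.natCast_dvd_natCast.1 hd
    apply g1
    rw [hb, Nat.cast_mul]
    exact Ideal.mul_mem_right _ _ hpv
  have hcop : IsCoprime (p : ℤ) (a : ℤ) :=
    (Nat.prime_iff_prime_int.1 hp).coprime_iff_not_dvd.2 hpa
  -- the difference of two elements
  have hdiff : ∀ (J : Ideal (𝓞 L)) (m m' : ℕ × ℕ),
      Q + ((m.1 : 𝓞 L) * (a : 𝓞 L) ^ r + (m.2 : 𝓞 L) * ((a : 𝓞 L) ^ (r - 1) * θ)) ∈ J →
      Q + ((m'.1 : 𝓞 L) * (a : 𝓞 L) ^ r + (m'.2 : 𝓞 L) * ((a : 𝓞 L) ^ (r - 1) * θ)) ∈ J →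
      ((m.1 : 𝓞 L) - m'.1) * (a : 𝓞 L) ^ r + ((m.2 : 𝓞 L) - m'.2) * ((a : 𝓞 L) ^ (r - 1) * θ) ∈ J := by
    intro J m m' h1 h2
    have h3 := J.sub_mem h1 h2
    have e : Q + ((m.1 : 𝓞 L) * (a : 𝓞 L) ^ r + (m.2 : 𝓞 L) * ((a : 𝓞 L) ^ (r - 1) * θ)) -
        (Q + ((m'.1 : 𝓞 L) * (a : 𝓞 L) ^ r + (m'.2 : 𝓞 L) * ((a : 𝓞 L) ^ (r - 1) * θ))) =
        ((m.1 : 𝓞 L) - m'.1) * (a : 𝓞 L) ^ r +
          ((m.2 : 𝓞 L) - m'.2) * ((a : 𝓞 L) ^ (r - 1) * θ) := by ring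
    rwa [e] at h3
  -- powers of a prime
  have case1 : ∀ w : HeightOneSpectrum (𝓞 L), w.asIdeal.LiesOver v.asIdeal → t = w.asIdeal ^ g →
      ((range (p ^ g) ×ˢ range (p ^ g)).filter fun m : ℕ × ℕ =>
      Q + ((m.1 : 𝓞 L) * (a : 𝓞 L) ^ r + (m.2 : 𝓞 L) * ((a : 𝓞 L) ^ (r - 1) * θ)) ∈ t).card ≤
      p ^ g := by
    intro w hw ht
    have h5 : ((range (p ^ g) ×ˢ range (p ^ g)).filter fun m : ℕ × ℕ =>
      Q + ((m.1 : 𝓞 L) * (a : 𝓞 L) ^ r + (m.2 : 𝓞 L) * ((a : 𝓞 L) ^ (r - 1) * θ)) ∈ t).card ≤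
      (range (p ^ g)).card := by
      refine Finset.card_le_card_of_injOn (fun m => m.2) ?_ ?_
      · intro m hm
        rw [mem_coe, mem_filter, mem_product] at hm
        exact hm.1.2
      · intro m hm m' hm' he
        rw [mem_coe, mem_filter, mem_product, mem_range, mem_range] at hm hm'
        have h6 := hdiff t m m' hm.2 hm'.2
        simp only at he
        rw [he, sub_self, zero_mul, add_zero, ht] at h6
        have e1 : ((m.1 : 𝓞 L) - m'.1) * (a : 𝓞 L) ^ r = algebraMap (𝓞 K) (𝓞 L)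
            (((((m.1 : ℤ) - m'.1) * (a : ℤ) ^ r : ℤ)) : 𝓞 K) := by
          rw [map_intCast]
          push_cast
          ring
        rw [e1] at h6
        have h7 := g3 p hp hpv g _ (g2 w hw g _ h6)
        have h8 : (p : ℤ) ^ g ∣ (m.1 : ℤ) - m'.1 :=
          (IsCoprime.pow hcop).dvd_of_dvd_mul_right h7
        have h9 : (m.1 : ℤ) = m'.1 := by
          have h10 : m'.1 ≡ m.1 [MOD p ^ g] := by
            rw [Nat.modEq_iff_dvd]
            push_cast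
            exact h8
          exact_mod_cast (h10.eq_of_lt_of_lt hm'.1.1 hm.1.1).symm
        exact Prod.ext (by exact_mod_cast h9) he
    rwa [card_range] at h5
  rcases h1 with ⟨w, hw, ht⟩ | ⟨rfl, w, hw, h1⟩
  · exact case1 w hw ht
  · rcases h1 with ht | h1
    · exact case1 w hw ht
    · -- two classes modulo `p`
      have key : ∀ m m' : ℕ × ℕ,
          Q + ((m.1 : 𝓞 L) * (a : 𝓞 L) ^ r + (m.2 : 𝓞 L) * ((a : 𝓞 L) ^ (r - 1) * θ)) ∈ t →
          Q + ((m'.1 : 𝓞 L) * (a : 𝓞 L) ^ r + (m'.2 : 𝓞 L) * ((a : 𝓞 L) ^ (r - 1) * θ)) ∈ t →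
          (p : ℤ) ∣ (m.1 : ℤ) - m'.1 ∧ (p : ℤ) ∣ (m.2 : ℤ) - m'.2 := by
        intro m m' hm hm'
        have hpr : ∀ u : HeightOneSpectrum (𝓞 L), u.asIdeal.LiesOver v.asIdeal → t ≤ u.asIdeal →
            algebraMap (𝓞 K) (𝓞 L) ((((a : ℤ) * ((m.1 : ℤ) - m'.1) : ℤ)) : 𝓞 K) +
              algebraMap (𝓞 K) (𝓞 L) ((((m.2 : ℤ) - m'.2 : ℤ)) : 𝓞 K) * θ ∈ u.asIdeal := by
          intro u hu htu
          have h6 := htu (hdiff t m m' hm hm')
          have e1 : ((m.1 : 𝓞 L) - m'.1) * (a : 𝓞 L) ^ r +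
              ((m.2 : 𝓞 L) - m'.2) * ((a : 𝓞 L) ^ (r - 1) * θ) =
              (a : 𝓞 L) ^ (r - 1) *
              (algebraMap (𝓞 K) (𝓞 L) ((((a : ℤ) * ((m.1 : ℤ) - m'.1) : ℤ)) : 𝓞 K) +
              algebraMap (𝓞 K) (𝓞 L) ((((m.2 : ℤ) - m'.2 : ℤ)) : 𝓞 K) * θ) := by
            obtain ⟨s, rfl⟩ : ∃ s, r = s + 1 := ⟨r - 1, by omega⟩
            rw [map_intCast, map_intCast]
            push_cast
            ring
          rw [e1] at h6
          rcases u.isPrime.mem_or_mem h6 with h7 | h7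
          · exfalso
            have h8 := u.isPrime.mem_of_pow_mem _ h7
            exact g1 ((nat_mem_over hu a).2 h8)
          · exact h7
        have h9 : (((a : ℤ) * ((m.1 : ℤ) - m'.1) : ℤ) : 𝓞 K) ∈ v.asIdeal ∧
            (((m.2 : ℤ) - m'.2 : ℤ) : 𝓞 K) ∈ v.asIdeal := by
          rcases h1 with ⟨w', hw', hne, ht⟩ | ⟨ht, hN⟩
          · have t1 : t ≤ w.asIdeal := by rw [ht]; exact Ideal.mul_le_left
            have t2 : t ≤ w'.asIdeal := by rw [ht]; exact Ideal.mul_le_right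
            exact g4 w hw _ _ (hpr w hw t1) (Or.inr ⟨w', hw', hne, hpr w' hw' t2⟩)
          · have t1 : t ≤ w.asIdeal := ht.le
            exact g4 w hw _ _ (hpr w hw t1) (Or.inl hN)
        have h10 := g3 p hp hpv 1 _ (by rw [pow_one]; exact h9.1)
        have h11 := g3 p hp hpv 1 _ (by rw [pow_one]; exact h9.2)
        rw [pow_one] at h10 h11
        exact ⟨hcop.dvd_of_dvd_mul_left h10, h11⟩
      have h5 : ((range (p ^ 2) ×ˢ range (p ^ 2)).filter fun m : ℕ × ℕ =>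
        Q + ((m.1 : 𝓞 L) * (a : 𝓞 L) ^ r + (m.2 : 𝓞 L) * ((a : 𝓞 L) ^ (r - 1) * θ)) ∈ t).card ≤
        (range p ×ˢ range p).card := by
        refine Finset.card_le_card_of_injOn (fun m => (m.1 / p, m.2 / p)) ?_ ?_
        · intro m hm
          rw [mem_coe, mem_filter, mem_product, mem_range, mem_range] at hm
          rw [mem_coe, mem_product, mem_range, mem_range]
          simp only
          rw [Nat.div_lt_iff_lt_mul hp.pos, Nat.div_lt_iff_lt_mul hp.pos, ← sq]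
          exact hm.1
        · intro m hm m' hm' he
          rw [mem_coe, mem_filter, mem_product, mem_range, mem_range] at hm hm'
          obtain ⟨k1, k2⟩ := key m m' hm.2 hm'.2
          simp only [Prod.mk.injEq] at he
          have aux : ∀ x x' : ℕ, (p : ℤ) ∣ (x : ℤ) - x' → x / p = x' / p → x = x' := by
            intro x x' h1 h2
            have h3 : x' ≡ x [MOD p] := by
              rw [Nat.modEq_iff_dvd]
              exact h1
            have h4 : x' % p = x % p := h3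
            rw [← Nat.div_add_mod x p, ← Nat.div_add_mod x' p, h2, h4]
          exact Prod.ext (aux _ _ k1 he.1) (aux _ _ k2 he.2)
      rwa [card_product, card_range, ← sq] at h5

/-- the number of the types -/
lemma TT_card {θ : 𝓞 L} {a r : ℕ} {Bad : Finset (HeightOneSpectrum (𝓞 K))}
    (hG : ∀ v ∉ Bad, Good θ a r v) {p : ℕ} (g : ℕ) (hp : p.Prime) :
    {t : Ideal (𝓞 L) | TT Bad p g t}.Finite ∧
      {t : Ideal (𝓞 L) | TT Bad p g t}.ncard ≤ finrank ℚ K * (4 * finrank K L ^ 2) := by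
  classical
  -- the primes above `p`
  have hfin : {v : HeightOneSpectrum (𝓞 K) | v ∉ Bad ∧ (p : 𝓞 K) ∈ v.asIdeal}.Finite := by
    have h1 : {v : HeightOneSpectrum (𝓞 K) | v.asIdeal ∣ Ideal.span {(p : 𝓞 K)}}.Finite := by
      refine Ideal.finite_factors ?_
      rw [Ne, Ideal.zero_eq_bot, Ideal.span_singleton_eq_bot]
      exact_mod_cast hp.ne_zero
    refine h1.subset fun v hv => ?_
    show v.asIdeal ∣ Ideal.span {(p : 𝓞 K)}
    rw [Ideal.dvd_iff_le, Ideal.span_singleton_le_iff_mem]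
    exact hv.2
  set V := hfin.toFinset with hV
  have hVm : ∀ v, v ∈ V ↔ v ∉ Bad ∧ (p : 𝓞 K) ∈ v.asIdeal := fun v => by
    rw [hV, Set.Finite.mem_toFinset]
    rfl
  have hVc : V.card ≤ finrank ℚ K := card_above p V fun v hv => below_eq hp ((hVm v).1 hv).2
  -- the types above `v`
  have hv1 : ∀ v : HeightOneSpectrum (𝓞 K), v ∉ Bad →
      ({b : Ideal (𝓞 L) | IsTyp v b}.Finite ∧
        {b : Ideal (𝓞 L) | IsTyp v b}.ncard ≤ 2 * finrank K L ^ 2) := fun v hv =>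
    (hG v hv).2.2.2.2.2.2
  have hv2 : ∀ v : HeightOneSpectrum (𝓞 K), v ∉ Bad →
      ({t : Ideal (𝓞 L) | ∃ w : HeightOneSpectrum (𝓞 L), w.asIdeal.LiesOver v.asIdeal ∧
        t = w.asIdeal ^ g}.Finite ∧
      {t : Ideal (𝓞 L) | ∃ w : HeightOneSpectrum (𝓞 L), w.asIdeal.LiesOver v.asIdeal ∧
        t = w.asIdeal ^ g}.ncard ≤ 2 * finrank K L ^ 2) := by
    intro v hv
    obtain ⟨f1, f2⟩ := hv1 v hv
    set W : Set (HeightOneSpectrum (𝓞 L)) := {w | w.asIdeal.LiesOver v.asIdeal} with hW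
    have hinj : Function.Injective fun w : HeightOneSpectrum (𝓞 L) => w.asIdeal ^ 2 := by
      intro w w' h
      have h1 : w.asIdeal ^ 2 = w'.asIdeal ^ 2 := h
      have h2 : w.asIdeal ≤ w'.asIdeal := by
        refine w'.isPrime.le_of_pow_le (n := 2) ?_
        rw [h1]
        exact Ideal.pow_le_self two_ne_zero
      apply HeightOneSpectrum.ext
      exact (w.isPrime.isMaximal w.ne_bot).eq_of_le w'.isPrime.ne_top h2
    have hmaps : ∀ w ∈ W, w.asIdeal ^ 2 ∈ {b : Ideal (𝓞 L) | IsTyp v b} := fun w hw =>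
      ⟨w, hw, Or.inl rfl⟩
    have hWf : W.Finite := Set.Finite.of_injOn hmaps hinj.injOn f1
    have hWc : W.ncard ≤ 2 * finrank K L ^ 2 :=
      (Set.ncard_le_ncard_of_injOn _ hmaps hinj.injOn f1).trans f2
    have e : {t : Ideal (𝓞 L) | ∃ w : HeightOneSpectrum (𝓞 L), w.asIdeal.LiesOver v.asIdeal ∧
        t = w.asIdeal ^ g} = (fun w : HeightOneSpectrum (𝓞 L) => w.asIdeal ^ g) '' W := by
      ext t
      constructor
      · rintro ⟨w, hw, rfl⟩
        exact ⟨w, hw, rfl⟩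
      · rintro ⟨w, hw, rfl⟩
        exact ⟨w, hw, rfl⟩
    rw [e]
    exact ⟨hWf.image _, (Set.ncard_image_le hWf).trans hWc⟩
  -- the union
  have hsub : {t : Ideal (𝓞 L) | TT Bad p g t} ⊆ ⋃ v ∈ V,
      ({t : Ideal (𝓞 L) | ∃ w : HeightOneSpectrum (𝓞 L), w.asIdeal.LiesOver v.asIdeal ∧
        t = w.asIdeal ^ g} ∪ {b : Ideal (𝓞 L) | IsTyp v b}) := by
    rintro t ⟨v, hv, hpv, h1 | ⟨-, h1⟩⟩
    · exact Set.mem_biUnion ((hVm v).2 ⟨hv, hpv⟩) (Or.inl h1)
    · exact Set.mem_biUnion ((hVm v).2 ⟨hv, hpv⟩) (Or.inr h1)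
  have hUf : (⋃ v ∈ V,
      ({t : Ideal (𝓞 L) | ∃ w : HeightOneSpectrum (𝓞 L), w.asIdeal.LiesOver v.asIdeal ∧
        t = w.asIdeal ^ g} ∪ {b : Ideal (𝓞 L) | IsTyp v b})).Finite := by
    refine Set.Finite.biUnion (Finset.finite_toSet V) fun v hv => ?_
    have hvB := ((hVm v).1 hv).1
    exact (hv2 v hvB).1.union (hv1 v hvB).1
  refine ⟨hUf.subset hsub, ?_⟩
  refine (Set.ncard_le_ncard hsub hUf).trans ?_
  refine (Finset.set_ncard_biUnion_le V _).trans ?_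
  calc ∑ v ∈ V, ({t : Ideal (𝓞 L) | ∃ w : HeightOneSpectrum (𝓞 L), w.asIdeal.LiesOver v.asIdeal ∧
        t = w.asIdeal ^ g} ∪ {b : Ideal (𝓞 L) | IsTyp v b}).ncard ≤
      ∑ _v ∈ V, 4 * finrank K L ^ 2 := by
        refine Finset.sum_le_sum fun v hv => ?_
        have hvB := ((hVm v).1 hv).1
        refine (Set.ncard_union_le _ _).trans ?_
        have h1 := (hv2 v hvB).2
        have h2 := (hv1 v hvB).2
        omega
    _ = V.card * (4 * finrank K L ^ 2) := by rw [Finset.sum_const, smul_eq_mul]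
    _ ≤ finrank ℚ K * (4 * finrank K L ^ 2) := Nat.mul_le_mul_right _ hVc

/-- the translation -/
def sh (K : Type) [Field K] [NumberField K] (r : ℕ) (m : ℕ × ℕ) : Fin (r + 1) → 𝓞 K := fun j =>
  if (j : ℕ) = 0 then (m.1 : 𝓞 K) else if (j : ℕ) = 1 then (m.2 : 𝓞 K) else 0

omit [NumberField L] in
lemma ev_sh {θ : 𝓞 L} {a r : ℕ} (hr : 1 ≤ r) (Q : Fin (r + 1) → 𝓞 K) (m : ℕ × ℕ) :
    ev a θ (Q + sh K r m) =
      ev a θ Q + ((m.1 : 𝓞 L) * (a : 𝓞 L) ^ r + (m.2 : 𝓞 L) * ((a : 𝓞 L) ^ (r - 1) * θ)) := by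
  obtain ⟨s, rfl⟩ : ∃ s, r = s + 1 := ⟨r - 1, by omega⟩
  unfold ev
  rw [map_add]
  congr 1
  show ∑ i : Fin (s + 1 + 1), algebraMap (𝓞 K) (𝓞 L) (sh K (s + 1) m i) *
    ((a : 𝓞 L) ^ (s + 1 - (i : ℕ)) * θ ^ (i : ℕ)) = _
  rw [Fin.sum_univ_succ, Fin.sum_univ_succ]
  have h0 : ∑ i : Fin s, algebraMap (𝓞 K) (𝓞 L) (sh K (s + 1) m i.succ.succ) *
    ((a : 𝓞 L) ^ (s + 1 - (i.succ.succ : ℕ)) * θ ^ (i.succ.succ : ℕ)) = 0 := by
    refine Finset.sum_eq_zero fun i _ => ?_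
    have : sh K (s + 1) m i.succ.succ = 0 := by
      unfold sh
      rw [if_neg (by simp), if_neg (by simp)]
    rw [this, map_zero, zero_mul]
  rw [h0, add_zero]
  unfold sh
  simp

lemma sz_zero : sz (0 : 𝓞 K) = 0 := by
  unfold sz
  refine Nat.le_zero.1 (Finset.sup_le fun i _ => ?_)
  simp

lemma sh_mem {r B q : ℕ} {c : Fin (r + 1) → 𝓞 K} (hc : c ∈ Bx K (r + 1) B) {m : ℕ × ℕ}
    (hm : m ∈ range q ×ˢ range q) : c - sh K r m ∈ Bx K (r + 1) (B + sz (1 : 𝓞 K) * q) := by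
  rw [mem_product, mem_range, mem_range] at hm
  intro j
  rw [Pi.sub_apply]
  refine (sz_sub _ _).trans ?_
  have h1 : sz (c j) ≤ B := hc j
  have h2 : sz (sh K r m j) ≤ sz (1 : 𝓞 K) * q := by
    unfold sh
    split_ifs
    · exact (sz_nat m.1).trans (Nat.mul_le_mul_left _ hm.1.le)
    · exact (sz_nat m.2).trans (Nat.mul_le_mul_left _ hm.2.le)
    · rw [sz_zero]
      exact Nat.zero_le _
  omega

/-- the conditions at the primes of `q` -/
def Cn (Bad : Finset (HeightOneSpectrum (𝓞 K))) (z : 𝓞 L) (q : ℕ) : Prop :=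
  ∀ p ∈ q.primeFactors, ∃ t : Ideal (𝓞 L), TT Bad p (q.factorization p) t ∧ z ∈ t

/-- a count modulo `q` -/
lemma count_q {θ : 𝓞 L} {a r : ℕ} {Bad : Finset (HeightOneSpectrum (𝓞 K))}
    (hG : ∀ v ∉ Bad, Good θ a r v) (hr : 1 ≤ r) {q : ℕ} (hq : q ≠ 0) (B : ℕ) :
    {c ∈ Bx K (r + 1) B | Cn Bad (ev a θ c) q}.ncard * q ≤
      (finrank ℚ K * (4 * finrank K L ^ 2)) ^ q.primeFactors.card *
        (2 * (B + sz (1 : 𝓞 K) * q) + 1) ^ ((r + 1) * finrank ℚ K) := by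
  classical
  set τ := finrank ℚ K * (4 * finrank K L ^ 2) with hτ
  have hSf : {c ∈ Bx K (r + 1) B | Cn Bad (ev a θ c) q}.Finite :=
    (bx_finite (r + 1) B).subset fun c hc => hc.1
  have hBf := bx_finite (K := K) (r + 1) (B + sz (1 : 𝓞 K) * q)
  have hS : ∀ c, c ∈ hSf.toFinset ↔ c ∈ Bx K (r + 1) B ∧ Cn Bad (ev a θ c) q := fun c => by
    rw [Set.Finite.mem_toFinset]
    rfl
  have h1 := dcount hSf.toFinset hBf.toFinset (range q ×ˢ range q) (sh K r)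
    (∏ p ∈ q.primeFactors, τ * p ^ q.factorization p) (by
      intro c hc m hm
      rw [Set.Finite.mem_toFinset]
      exact sh_mem ((hS c).1 hc).1 hm) (by
      intro Q _
      refine le_trans (Finset.card_le_card ?_) (crt hq (fun p m => ∃ t : Ideal (𝓞 L),
        TT Bad p (q.factorization p) t ∧ ev a θ Q + ((m.1 : 𝓞 L) * (a : 𝓞 L) ^ r +
          (m.2 : 𝓞 L) * ((a : 𝓞 L) ^ (r - 1) * θ)) ∈ t) _ ?_ ?_)
      · intro m hm
        rw [mem_filter] at hm ⊢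
        refine ⟨hm.1, ?_⟩
        have h2 := ((hS _).1 hm.2).2
        intro p hp
        obtain ⟨t, ht, h3⟩ := h2 p hp
        rw [ev_sh hr] at h3
        exact ⟨t, ht, h3⟩
      · rintro p hp m ⟨t, ht, h3⟩
        refine ⟨t, ht, ?_⟩
        have h4 := TT_pow ht
        have e : ∀ x : ℕ, (((x % p ^ q.factorization p : ℕ)) : 𝓞 L) =
            (x : 𝓞 L) - (p : 𝓞 L) ^ q.factorization p * ((x / p ^ q.factorization p : ℕ) : 𝓞 L) := by
          intro x
          have := Nat.div_add_mod x (p ^ q.factorization p)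
          have h5 := congrArg (fun z : ℕ => (z : 𝓞 L)) this
          push_cast at h5
          rw [← h5]
          ring
        simp only
        rw [e, e]
        have h6 : ev a θ Q + (((m.1 : 𝓞 L) - (p : 𝓞 L) ^ q.factorization p *
            ((m.1 / p ^ q.factorization p : ℕ) : 𝓞 L)) * (a : 𝓞 L) ^ r +
            ((m.2 : 𝓞 L) - (p : 𝓞 L) ^ q.factorization p *
            ((m.2 / p ^ q.factorization p : ℕ) : 𝓞 L)) * ((a : 𝓞 L) ^ (r - 1) * θ)) =
            (ev a θ Q + ((m.1 : 𝓞 L) * (a : 𝓞 L) ^ r +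
              (m.2 : 𝓞 L) * ((a : 𝓞 L) ^ (r - 1) * θ))) -
            (((m.1 / p ^ q.factorization p : ℕ) : 𝓞 L) * (a : 𝓞 L) ^ r +
              ((m.2 / p ^ q.factorization p : ℕ) : 𝓞 L) * ((a : 𝓞 L) ^ (r - 1) * θ)) *
              (p : 𝓞 L) ^ q.factorization p := by ring
        rw [h6]
        exact t.sub_mem h3 (t.mul_mem_left _ h4)
      · intro p hp
        have hpp := Nat.prime_of_mem_primeFactors hp
        obtain ⟨f1, f2⟩ := TT_card hG (q.factorization p) hpp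
        have hle : (((range (p ^ q.factorization p) ×ˢ range (p ^ q.factorization p))).filter
            fun m : ℕ × ℕ => ∃ t : Ideal (𝓞 L), TT Bad p (q.factorization p) t ∧
              ev a θ Q + ((m.1 : 𝓞 L) * (a : 𝓞 L) ^ r +
              (m.2 : 𝓞 L) * ((a : 𝓞 L) ^ (r - 1) * θ)) ∈ t) ⊆ f1.toFinset.biUnion fun t =>
            ((range (p ^ q.factorization p) ×ˢ range (p ^ q.factorization p))).filter
              fun m : ℕ × ℕ => ev a θ Q + ((m.1 : 𝓞 L) * (a : 𝓞 L) ^ r +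
              (m.2 : 𝓞 L) * ((a : 𝓞 L) ^ (r - 1) * θ)) ∈ t := by
          intro m hm
          rw [mem_filter] at hm
          obtain ⟨h7, t, ht, h8⟩ := hm
          rw [Finset.mem_biUnion]
          refine ⟨t, ?_, ?_⟩
          · rw [Set.Finite.mem_toFinset]
            exact ht
          · rw [mem_filter]
            exact ⟨h7, h8⟩
        refine (Finset.card_le_card hle).trans ?_
        refine Finset.card_biUnion_le.trans ?_
        calc _ ≤ ∑ t ∈ f1.toFinset, p ^ q.factorization p := by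
              refine Finset.sum_le_sum fun t ht => ?_
              rw [Set.Finite.mem_toFinset] at ht
              exact TT_count hG hr hpp ht _
          _ = f1.toFinset.card * p ^ q.factorization p := by rw [sum_const, smul_eq_mul]
          _ ≤ τ * p ^ q.factorization p := by
              refine Nat.mul_le_mul_right _ ?_
              rw [← Set.ncard_eq_toFinset_card _ f1]
              exact f2)
  rw [card_product, card_range, Finset.prod_mul_distrib, Finset.prod_const,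
    ← Set.ncard_eq_toFinset_card _ hSf, ← Set.ncard_eq_toFinset_card _ hBf] at h1
  have h2 : ∏ p ∈ q.primeFactors, p ^ q.factorization p = q := by
    conv_rhs => rw [← Nat.prod_factorization_pow_eq_self hq]
    rw [Finsupp.prod, Nat.support_factorization]
  rw [h2] at h1
  have h3 := bx_card (K := K) (r + 1) (B + sz (1 : 𝓞 K) * q)
  have hq0 : 0 < q := Nat.pos_of_ne_zero hq
  refine Nat.le_of_mul_le_mul_right ?_ hq0
  calc _ = {c ∈ Bx K (r + 1) B | Cn Bad (ev a θ c) q}.ncard * (q * q) := by ring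
    _ ≤ _ := h1
    _ ≤ τ ^ q.primeFactors.card * q *
        (2 * (B + sz (1 : 𝓞 K) * q) + 1) ^ ((r + 1) * finrank ℚ K) := Nat.mul_le_mul_left _ h3
    _ = _ := by ring

end loc

end Pool.Agent.N340.DR
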