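import Mathlib
import Pool.Agent.N753.DR.Stm
import Pool.Agent.N340.DR.Loc

/-!
# DR/SMALL, part 3: the proof
-/

set_option autoImplicit false

open Finset NumberField IsDedekindDomain Module

namespace Pool.Agent.N340.DR

open Pool.Agent.N753.DR
open Pool.Agent.H437R2.Man.Low (below nm below_data card_above nm_ne_zero two_le_nm)

section

variable {K L : Type} [Field K] [NumberField K] [Field L] [NumberField L] [Algebra K L]

/-- admissible numbers -/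
def Adm (Bad : Finset (HeightOneSpectrum (𝓞 K))) (z : 𝓞 L) (y : ℝ) (q : ℕ) : Prop :=
  q ≠ 0 ∧ ∀ p ∈ q.primeFactors, (p : ℝ) ≤ y ∧ 2 ≤ q.factorization p ∧
    ∃ t : Ideal (𝓞 L), TT Bad p (q.factorization p) t ∧ z ∈ t

lemma adm_step {Bad : Finset (HeightOneSpectrum (𝓞 K))} {z : 𝓞 L} {y : ℝ} (hy : 1 ≤ y) {q : ℕ}
    (h : Adm Bad z y q) (h1 : q ≠ 1) :
    ∃ q' d, q = q' * d ∧ Adm Bad z y q' ∧ 2 ≤ d ∧ (d : ℝ) ≤ y ^ 2 := by
  obtain ⟨hq0, hq⟩ := h
  obtain ⟨p, hp, hpq⟩ := Nat.exists_prime_and_dvd h1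
  have hpm : p ∈ q.primeFactors := Nat.mem_primeFactors.2 ⟨hp, hpq, hq0⟩
  obtain ⟨hpy, hg, t, ht, hz⟩ := hq p hpm
  -- dividing by a power of `p`
  have hdiv : ∀ j, j ≤ q.factorization p → ∃ q', q = q' * p ^ j ∧ q' ≠ 0 ∧
      q'.factorization p = q.factorization p - j ∧ ∀ l, l ≠ p →
        q'.factorization l = q.factorization l := by
    intro j hj
    obtain ⟨q', hq'⟩ : p ^ j ∣ q := (hp.pow_dvd_iff_le_factorization hq0).2 hj
    have h0 : q' ≠ 0 := by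
      rintro rfl
      exact hq0 (by rw [hq', mul_zero])
    have hfac : q.factorization = q'.factorization + Finsupp.single p j := by
      rw [hq', Nat.factorization_mul (pow_ne_zero _ hp.ne_zero) h0, hp.factorization_pow, add_comm]
    refine ⟨q', by rw [hq', mul_comm], h0, ?_, ?_⟩
    · rw [hfac, Finsupp.add_apply, Finsupp.single_eq_same, Nat.add_sub_cancel]
    · intro l hl
      rw [hfac, Finsupp.add_apply, Finsupp.single_eq_of_ne hl, add_zero]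
  have hmem : ∀ {q' l : ℕ}, l ∈ q'.primeFactors → q' ∣ q → l ∈ q.primeFactors := by
    intro q' l hl hd
    exact Nat.primeFactors_mono hd hq0 hl
  have hp1 : (1 : ℝ) ≤ p := by exact_mod_cast hp.one_lt.le
  rcases Nat.lt_or_ge 2 (q.factorization p) with h3 | h3
  · obtain ⟨q', e, h0, hf, hl⟩ := hdiv 1 (by omega)
    rw [pow_one] at e
    refine ⟨q', p, e, ⟨h0, ?_⟩, hp.two_le, ?_⟩
    · intro l hlm
      have hlq := hmem hlm ⟨p, e⟩
      by_cases hlp : l = p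
      · subst hlp
        refine ⟨hpy, by omega, ?_⟩
        obtain ⟨v, hv, hpv, ⟨w, hw, rfl⟩ | ⟨h4, -⟩⟩ := ht
        · refine ⟨w.asIdeal ^ (q'.factorization l), ⟨v, hv, hpv, Or.inl ⟨w, hw, rfl⟩⟩, ?_⟩
          refine Ideal.pow_le_pow_right ?_ hz
          omega
        · omega
      · rw [hl l hlp]
        exact hq l hlq
    · calc (p : ℝ) ≤ y := hpy
        _ ≤ y ^ 2 := by nlinarith
  · have h4 : q.factorization p = 2 := by omega
    obtain ⟨q', e, h0, hf, hl⟩ := hdiv 2 (by omega)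
    refine ⟨q', p ^ 2, e, ⟨h0, ?_⟩, ?_, ?_⟩
    · intro l hlm
      have hlq := hmem hlm ⟨p ^ 2, e⟩
      by_cases hlp : l = p
      · subst hlp
        exfalso
        have h5 := (Nat.prime_of_mem_primeFactors hlm).factorization_pos_of_dvd h0
          (Nat.dvd_of_mem_primeFactors hlm)
        omega
      · rw [hl l hlp]
        exact hq l hlq
    · have := hp.two_le
      nlinarith
    · push_cast
      gcongr

open scoped Classical in
lemma adm_exists {Bad : Finset (HeightOneSpectrum (𝓞 K))} {z : 𝓞 L} {y : ℝ}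
    (W : Finset (HeightOneSpectrum (𝓞 L))) (e : HeightOneSpectrum (𝓞 L) → ℕ)
    (hW : ∀ w ∈ W, ∃ v ∉ Bad, w.asIdeal.LiesOver v.asIdeal ∧
      (Ideal.absNorm v.asIdeal : ℝ) ≤ y ∧ ∃ b : Ideal (𝓞 L), IsTyp v b ∧ z ∈ b)
    (he : ∀ w ∈ W, z ∈ w.asIdeal ^ e w) :
    ∃ Q, Adm Bad z y Q ∧ ∑ w ∈ W, e w * lN w ≤ finrank ℚ L * Real.log Q := by
  set P : Finset ℕ := W.image below with hP
  set G : ℕ → ℕ := fun p => max 2 ((W.filter fun w => below w = p).sup e) with hGdef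
  set f : ℕ →₀ ℕ := Finsupp.onFinset P (fun p => if p ∈ P then G p else 0) (by
    intro p hp
    by_contra hc
    exact hp (if_neg hc)) with hf
  have hfP : ∀ p ∈ P, f p = G p := fun p hp => by
    rw [hf, Finsupp.onFinset_apply, if_pos hp]
  have hfs : f.support ⊆ P := Finsupp.support_onFinset_subset
  have hPp : ∀ p ∈ P, p.Prime := by
    intro p hp
    obtain ⟨w, -, rfl⟩ := Finset.mem_image.1 hp
    exact (below_data w).1
  have hfac := Nat.prod_pow_factorization_eq_self (f := f) fun p hp => hPp p (hfs hp)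
  have hQ : f.prod (· ^ ·) = ∏ p ∈ P, p ^ f p :=
    Finsupp.prod_of_support_subset f hfs _ fun p _ => pow_zero p
  rw [hQ] at hfac
  have hQ0 : ∏ p ∈ P, p ^ f p ≠ 0 :=
    Finset.prod_ne_zero_iff.2 fun p hp => pow_ne_zero _ (hPp p hp).ne_zero
  refine ⟨∏ p ∈ P, p ^ f p, ⟨hQ0, ?_⟩, ?_⟩
  · intro p hp
    rw [hfac]
    have hpP : p ∈ P := by
      apply hfs
      rw [← hfac, Nat.support_factorization]
      exact hp
    have hpp := hPp p hpP
    rw [hfP p hpP]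
    -- an element of `W` over `p` with maximal exponent
    have hne : (W.filter fun w => below w = p).Nonempty := by
      obtain ⟨w, hw, hwp⟩ := Finset.mem_image.1 hpP
      exact ⟨w, Finset.mem_filter.2 ⟨hw, hwp⟩⟩
    obtain ⟨w0, hw0, hsup⟩ := Finset.exists_mem_eq_sup _ hne e
    rw [Finset.mem_filter] at hw0
    obtain ⟨v, hv, hlo, hvy, b, hb, hzb⟩ := hW w0 hw0.1
    have hpw : (p : 𝓞 L) ∈ w0.asIdeal := by
      have := (below_data w0).2.2
      rwa [hw0.2] at this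
    have hpv : (p : 𝓞 K) ∈ v.asIdeal := (nat_mem_over hlo p).2 hpw
    have hpN : p ≤ Ideal.absNorm v.asIdeal := by
      have := (below_data v).2.1
      rw [below_eq hpp hpv] at this
      exact this
    have hpNR : (p : ℝ) ≤ Ideal.absNorm v.asIdeal := by exact_mod_cast hpN
    refine ⟨hpNR.trans hvy, le_max_left _ _, ?_⟩
    rcases le_or_gt 2 (e w0) with h2 | h2
    · have hG : G p = e w0 := by
        rw [hGdef]
        simp only
        rw [hsup, max_eq_right h2]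
      rw [hG]
      exact ⟨w0.asIdeal ^ e w0, ⟨v, hv, hpv, Or.inl ⟨w0, hlo, rfl⟩⟩, he w0 hw0.1⟩
    · have hG : G p = 2 := by
        rw [hGdef]
        simp only
        rw [hsup, max_eq_left h2.le]
      rw [hG]
      exact ⟨b, ⟨v, hv, hpv, Or.inr ⟨rfl, hb⟩⟩, hzb⟩
  · have hlog : Real.log ((∏ p ∈ P, p ^ f p : ℕ) : ℝ) = ∑ p ∈ P, (G p : ℝ) * Real.log p := by
      rw [Nat.cast_prod, Real.log_prod]
      · refine Finset.sum_congr rfl fun p hp => ?_
        rw [Nat.cast_pow, Real.log_pow, hfP p hp]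
      · intro p hp
        rw [Nat.cast_pow]
        exact pow_ne_zero _ (by exact_mod_cast (hPp p hp).ne_zero)
    rw [hlog, Finset.mul_sum]
    rw [← Finset.sum_fiberwise_of_maps_to (s := W) (t := P) (g := below)
      (fun w hw => Finset.mem_image_of_mem _ hw)]
    refine Finset.sum_le_sum fun p hp => ?_
    calc ∑ w ∈ W with below w = p, (e w : ℝ) * lN w ≤
          ∑ w ∈ W with below w = p, (G p : ℝ) * lN w := by
          refine Finset.sum_le_sum fun w hw => ?_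
          have h1 : e w ≤ G p := le_max_of_le_right (Finset.le_sup (f := e) hw)
          have h2 : (e w : ℝ) ≤ G p := by exact_mod_cast h1
          exact mul_le_mul_of_nonneg_right h2 (lN_nonneg w)
      _ = (G p : ℝ) * ∑ w ∈ W with below w = p, lN w := by rw [Finset.mul_sum]
      _ ≤ (G p : ℝ) * (finrank ℚ L * Real.log p) := by
          refine mul_le_mul_of_nonneg_left ?_ (Nat.cast_nonneg _)
          exact sum_lN_le p _ (hPp p hp) fun w hw => (Finset.mem_filter.1 hw).2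
      _ = finrank ℚ L * ((G p : ℝ) * Real.log p) := by ring

end

theorem t (h : StmTyp) : StmSmall := by
  intro K L _ _ _ _ _ θ a r hθ ha hr
  obtain ⟨Bad, hBad⟩ := h K L θ a r hθ ha hr
  have hG : ∀ v ∉ Bad, Good θ a r v := hBad
  refine ⟨Bad, fun κ hκ => ?_⟩
  classical
  set N : ℕ := (r + 1) * finrank ℚ K with hN
  set τ : ℕ := finrank ℚ K * (4 * finrank K L ^ 2) with hτ
  set C1 : ℕ := sz (1 : 𝓞 K) with hC1
  have hnL : (0 : ℝ) < finrank ℚ L := by exact_mod_cast finrank_pos (R := ℚ) (M := L)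
  obtain ⟨Cτ, hCτ, hτb⟩ := tau_bound (τ := τ + 1) (by omega)
  obtain ⟨Cs, hCs, hsb⟩ := sum_bound
  obtain ⟨κ1, hκ1⟩ : ∃ κ1 : ℝ, κ1 = min (κ / finrank ℚ L) 1 / 2 := ⟨_, rfl⟩
  have hκ1pos : 0 < κ1 := by
    rw [hκ1]
    have : 0 < min (κ / finrank ℚ L) 1 := lt_min (div_pos hκ hnL) one_pos
    linarith
  have hκ1a : κ1 ≤ κ / finrank ℚ L := by
    rw [hκ1]
    have h1 : min (κ / finrank ℚ L) 1 ≤ κ / finrank ℚ L := min_le_left _ _
    have h2 : 0 < κ / finrank ℚ L := div_pos hκ hnL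
    linarith
  have hκ1b : κ1 ≤ 1 / 2 := by
    rw [hκ1]
    have h1 : min (κ / finrank ℚ L) 1 ≤ 1 := min_le_right _ _
    linarith
  refine ⟨1 / 4, κ1 / 8, Cτ * (3 + 2 * C1) ^ N * Cs, by norm_num, by positivity, ?_⟩
  intro B hB
  have hBR : (1 : ℝ) ≤ B := by exact_mod_cast hB
  have hBpos : (0 : ℝ) < B := by linarith
  obtain ⟨X, hX⟩ : ∃ X : ℝ, X = (B : ℝ) ^ κ1 := ⟨_, rfl⟩
  have hX1 : 1 ≤ X := by rw [hX]; exact Real.one_le_rpow hBR hκ1pos.le
  obtain ⟨y, hy⟩ : ∃ y : ℝ, y = (B : ℝ) ^ (1 / 4 : ℝ) := ⟨_, rfl⟩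
  have hy1 : 1 ≤ y := by rw [hy]; exact Real.one_le_rpow hBR (by norm_num)
  have hXy : X * y ^ 2 ≤ B := by
    rw [hX, hy, ← Real.rpow_natCast, ← Real.rpow_mul hBpos.le, ← Real.rpow_add hBpos]
    calc (B : ℝ) ^ (κ1 + 1 / 4 * ((2 : ℕ) : ℝ)) ≤ (B : ℝ) ^ (1 : ℝ) := by
          refine Real.rpow_le_rpow_of_exponent_le hBR ?_
          push_cast
          linarith
      _ = B := Real.rpow_one _
  rw [← hy]
  set F := (Icc 1 B ×ˢ Icc 1 B).filter (fun z : ℕ × ℕ => X ≤ ((z.1 ^ 2 * z.2 ^ 3 : ℕ) : ℝ)) with hF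
  set F' := F.filter fun z : ℕ × ℕ => z.1 ^ 2 * z.2 ^ 3 ≤ B with hF'
  have hsub : {c ∈ Bx K (r + 1) B | ∃ W : Finset (HeightOneSpectrum (𝓞 L)),
      (∀ w ∈ W, ∃ v ∉ Bad, w.asIdeal.LiesOver v.asIdeal ∧
        (Ideal.absNorm v.asIdeal : ℝ) ≤ y ∧ NS a θ c v) ∧
      ∃ e : HeightOneSpectrum (𝓞 L) → ℕ, (∀ w ∈ W, ev a θ c ∈ w.asIdeal ^ e w) ∧
        κ * Real.log B ≤ ∑ w ∈ W, e w * lN w} ⊆
      ⋃ z ∈ F', {c ∈ Bx K (r + 1) B | Cn Bad (ev a θ c) (z.1 ^ 2 * z.2 ^ 3)} := by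
    rintro c ⟨hc, W, hW, e, he, hsum⟩
    obtain ⟨Q, hQ, hQs⟩ := adm_exists W e hW he
    have hQ0 : (0 : ℝ) < Q := by exact_mod_cast Nat.pos_of_ne_zero hQ.1
    have hQX : X ≤ Q := by
      rw [hX, Real.rpow_def_of_pos hBpos]
      rw [← Real.le_log_iff_exp_le hQ0]
      have h1 : κ * Real.log B ≤ finrank ℚ L * Real.log Q := hsum.trans hQs
      have h2 : κ / finrank ℚ L * Real.log B ≤ Real.log Q := by
        rw [div_mul_eq_mul_div, div_le_iff₀ hnL, mul_comm (Real.log (Q : ℝ))]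
        exact h1
      have h3 : κ1 * Real.log B ≤ κ / finrank ℚ L * Real.log B :=
        mul_le_mul_of_nonneg_right hκ1a (Real.log_nonneg hBR)
      linarith
    obtain ⟨q, hq, hqX, hqB⟩ := descend (Adm Bad (ev a θ c) y) hy1 hX1
      (fun q hq hq1 => adm_step hy1 hq hq1) (fun q hq => hq.1) Q hQ hQX
    obtain ⟨x, x', hxx⟩ := pow_rep hq.1 fun p hp => (hq.2 p hp).2.1
    have hqB' : q ≤ B := by exact_mod_cast hqB.trans hXy
    have hx0 : x ≠ 0 := by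
      rintro rfl
      exact hq.1 (by rw [hxx]; simp)
    have hx0' : x' ≠ 0 := by
      rintro rfl
      exact hq.1 (by rw [hxx]; simp)
    have hx1 : 1 ≤ x := Nat.pos_of_ne_zero hx0
    have hx1' : 1 ≤ x' := Nat.pos_of_ne_zero hx0'
    have hxB : x ≤ B := by
      calc x ≤ x ^ 2 := Nat.le_self_pow two_ne_zero x
        _ ≤ x ^ 2 * x' ^ 3 := Nat.le_mul_of_pos_right _ (by positivity)
        _ = q := hxx.symm
        _ ≤ B := hqB'
    have hxB' : x' ≤ B := by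
      calc x' ≤ x' ^ 3 := Nat.le_self_pow three_ne_zero x'
        _ ≤ x ^ 2 * x' ^ 3 := Nat.le_mul_of_pos_left _ (by positivity)
        _ = q := hxx.symm
        _ ≤ B := hqB'
    refine Set.mem_biUnion (x := (x, x')) ?_ ⟨hc, ?_⟩
    · rw [hF', hF, mem_coe, mem_filter, mem_filter, mem_product, mem_Icc, mem_Icc]
      simp only
      rw [← hxx]
      exact ⟨⟨⟨⟨hx1, hxB⟩, hx1', hxB'⟩, hqX⟩, hqB'⟩
    · simp only
      rw [← hxx]
      exact fun p hp => (hq.2 p hp).2.2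
  have hUf : (⋃ z ∈ F', {c ∈ Bx K (r + 1) B | Cn Bad (ev a θ c) (z.1 ^ 2 * z.2 ^ 3)}).Finite := by
    refine (bx_finite (r + 1) B).subset ?_
    intro c hc
    simp only [Set.mem_iUnion] at hc
    obtain ⟨z, -, hz⟩ := hc
    exact hz.1
  have h1 : ({c ∈ Bx K (r + 1) B | ∃ W : Finset (HeightOneSpectrum (𝓞 L)),
      (∀ w ∈ W, ∃ v ∉ Bad, w.asIdeal.LiesOver v.asIdeal ∧
        (Ideal.absNorm v.asIdeal : ℝ) ≤ y ∧ NS a θ c v) ∧
      ∃ e : HeightOneSpectrum (𝓞 L) → ℕ, (∀ w ∈ W, ev a θ c ∈ w.asIdeal ^ e w) ∧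
        κ * Real.log B ≤ ∑ w ∈ W, e w * lN w}.ncard : ℝ) ≤
      ∑ z ∈ F', ({c ∈ Bx K (r + 1) B | Cn Bad (ev a θ c) (z.1 ^ 2 * z.2 ^ 3)}.ncard : ℝ) := by
    have h2 := (Set.ncard_le_ncard hsub hUf).trans (Finset.set_ncard_biUnion_le F' _)
    exact_mod_cast h2
  refine h1.trans ?_
  have h3 : ∀ z ∈ F', ({c ∈ Bx K (r + 1) B | Cn Bad (ev a θ c) (z.1 ^ 2 * z.2 ^ 3)}.ncard : ℝ) ≤
      Cτ * (3 + 2 * C1) ^ N * (B : ℝ) ^ N * ((z.1 ^ 2 * z.2 ^ 3 : ℕ) : ℝ) ^ (-(7 / 8) : ℝ) := by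
    intro z hz
    rw [hF', mem_filter, hF, mem_filter, mem_product, mem_Icc, mem_Icc] at hz
    obtain ⟨⟨⟨⟨hz1, -⟩, hz2, -⟩, -⟩, hzB⟩ := hz
    have hq0 : z.1 ^ 2 * z.2 ^ 3 ≠ 0 := by positivity
    generalize z.1 ^ 2 * z.2 ^ 3 = q at hzB hq0 ⊢
    have h4 := count_q hG hr hq0 B
    have h5 : ({c ∈ Bx K (r + 1) B | Cn Bad (ev a θ c) q}.ncard : ℝ) * q ≤
        (τ : ℝ) ^ q.primeFactors.card * (2 * (B + C1 * q) + 1) ^ N := by
      exact_mod_cast h4
    have hqR : (0 : ℝ) < q := by exact_mod_cast Nat.pos_of_ne_zero hq0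
    have hqB : (q : ℝ) ≤ B := by exact_mod_cast hzB
    have h6 : (τ : ℝ) ^ q.primeFactors.card ≤ Cτ * (q : ℝ) ^ (1 / 8 : ℝ) := by
      refine le_trans ?_ (hτb q hq0)
      refine pow_le_pow_left₀ (Nat.cast_nonneg _) ?_ _
      push_cast
      linarith
    have h7 : (2 * ((B : ℝ) + C1 * q) + 1) ^ N ≤ ((3 + 2 * C1) * (B : ℝ)) ^ N := by
      refine pow_le_pow_left₀ (by positivity) ?_ _
      have : (C1 : ℝ) * q ≤ C1 * B := mul_le_mul_of_nonneg_left hqB (Nat.cast_nonneg _)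
      nlinarith
    have h8 : ({c ∈ Bx K (r + 1) B | Cn Bad (ev a θ c) q}.ncard : ℝ) * q ≤
        (Cτ * (q : ℝ) ^ (1 / 8 : ℝ)) * ((3 + 2 * C1) * (B : ℝ)) ^ N :=
      h5.trans (mul_le_mul h6 h7 (by positivity) (by positivity))
    rw [← le_div_iff₀ hqR] at h8
    refine h8.trans (le_of_eq ?_)
    have h9 : (q : ℝ) ^ (-(7 / 8) : ℝ) = (q : ℝ) ^ (1 / 8 : ℝ) / q := by
      rw [show (-(7 / 8) : ℝ) = 1 / 8 - 1 by norm_num, Real.rpow_sub_one hqR.ne']
    rw [h9, mul_pow]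
    ring
  refine (Finset.sum_le_sum h3).trans ?_
  rw [← Finset.mul_sum]
  have h10 : ∑ z ∈ F', ((z.1 ^ 2 * z.2 ^ 3 : ℕ) : ℝ) ^ (-(7 / 8) : ℝ) ≤
      Cs * X ^ (-(1 / 8) : ℝ) := by
    refine le_trans ?_ (hsb B X hX1)
    exact Finset.sum_le_sum_of_subset_of_nonneg (Finset.filter_subset _ _)
      (fun _ _ _ => by positivity)
  have h11 : X ^ (-(1 / 8) : ℝ) = (B : ℝ) ^ (-(κ1 / 8)) := by
    rw [hX, ← Real.rpow_mul hBpos.le]
    congr 1
    ring
  rw [h11] at h10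
  refine (mul_le_mul_of_nonneg_left h10 (by positivity)).trans (le_of_eq ?_)
  have h12 : (B : ℝ) ^ ((finrank ℚ K : ℝ) * (r + 1) - κ1 / 8) =
      (B : ℝ) ^ N * (B : ℝ) ^ (-(κ1 / 8)) := by
    rw [sub_eq_add_neg, Real.rpow_add hBpos]
    congr 1
    rw [hN, ← Real.rpow_natCast]
    congr 1
    push_cast
    ring
  rw [h12]
  ring

end Pool.Agent.N340.DR
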